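import Pool.Agent.helper20.HP.Goal

/-!
Module ut:A3 of project MP_5ae64c_pr : states.
-/

open scoped BigOperators Topology
open Filter MeasureTheory

namespace Pool.Agent.helper20.HP

variable {V : Type} [Fintype V] [DecidableEq V] (K : HW V)

section States
omit [Fintype V]

/-! auxiliary facts on `dropWhile` -/

theorem A3_dw_eq (y : V) (u v : List V) (h : y ∉ u) :
    (u ++ y :: v).dropWhile (fun z => decide (z ≠ y)) = y :: v := by
  induction u with
  | nil => simp
  | cons a u ih =>
    have ha : a ≠ y := by
      intro h'; subst h'; simp at h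
    have hu : y ∉ u := by
      intro h'; exact h (List.mem_cons_of_mem _ h')
    rw [List.cons_append, List.dropWhile_cons_of_pos (by simpa using ha)]
    exact ih hu

theorem A3_split (y : V) (A : List V) (h : y ∈ A) : ∃ u v, A = u ++ y :: v ∧ y ∉ u := by
  induction A with
  | nil => simp at h
  | cons a A ih =>
    by_cases ha : y = a
    · exact ⟨[], A, by simp [ha], by simp⟩
    · have hA : y ∈ A := by
        rcases List.mem_cons.mp h with h | h
        · exact absurd h ha
        · exact h
      obtain ⟨u, v, h1, h2⟩ := ih hA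
      exact ⟨a :: u, v, by simp [h1], by simp [ha, h2]⟩

theorem A3_stp_mem (y : V) (u v : List V) (h : y ∉ u) : stp (u ++ y :: v) y = y :: v := by
  unfold stp
  rw [if_pos (by simp), A3_dw_eq y u v h]

theorem A3_stp_notMem {y : V} {γ : List V} (h : y ∉ γ) : stp γ y = y :: γ := by
  unfold stp
  rw [if_neg h]

theorem A3_stp_append (A ρ : List V) (y : V) (h : y ∉ ρ) : stp (A ++ ρ) y = stp A y ++ ρ := by
  by_cases hA : y ∈ A
  · obtain ⟨u, v, rfl, hu⟩ := A3_split y A hA
    rw [List.append_assoc, List.cons_append, A3_stp_mem y u (v ++ ρ) hu, A3_stp_mem y u v hu]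
    rfl
  · rw [A3_stp_notMem hA, A3_stp_notMem (by simp [hA, h])]
    rfl

theorem A3_stp_cons (γ : List V) (y : V) : ∃ τ, stp γ y = y :: τ := by
  by_cases hA : y ∈ γ
  · obtain ⟨u, v, rfl, hu⟩ := A3_split y γ hA
    exact ⟨v, A3_stp_mem y u v hu⟩
  · exact ⟨γ, A3_stp_notMem hA⟩

theorem A3_stp_nodup {γ : List V} (h : γ.Nodup) (y : V) : (stp γ y).Nodup := by
  by_cases hA : y ∈ γ
  · obtain ⟨u, v, rfl, hu⟩ := A3_split y γ hA
    rw [A3_stp_mem y u v hu]
    exact (List.nodup_append.mp h).2.1
  · rw [A3_stp_notMem hA]
    exact List.nodup_cons.mpr ⟨hA, h⟩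

theorem A3_stp_subset {γ : List V} {y z : V} (h : z ∈ stp γ y) : z ∈ γ ∨ z = y := by
  by_cases hA : y ∈ γ
  · obtain ⟨u, v, rfl, hu⟩ := A3_split y γ hA
    rw [A3_stp_mem y u v hu] at h
    left
    exact List.mem_append_right _ h
  · rw [A3_stp_notMem hA] at h
    rcases List.mem_cons.mp h with h | h
    · exact Or.inr h
    · exact Or.inl h

theorem stp_length_le (γ : List V) (y : V) : (stp γ y).length ≤ γ.length + 1 := by
  by_cases hA : y ∈ γ
  · obtain ⟨u, v, rfl, hu⟩ := A3_split y γ hA
    rw [A3_stp_mem y u v hu]
    simp only [List.length_append, List.length_cons]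
    omega
  · rw [A3_stp_notMem hA]
    simp

theorem run_nil (γ : List V) : run γ [] = γ := rfl

theorem run_cons (γ : List V) (y : V) (l : List V) : run γ (y :: l) = run (stp γ y) l := rfl

theorem run_append (γ l l' : List V) : run γ (l ++ l') = run (run γ l) l' := by
  unfold run
  rw [List.foldl_append]

theorem A3_run_concat (γ l : List V) (y : V) : run γ (l ++ [y]) = stp (run γ l) y := by
  rw [run_append]
  rfl

theorem lst_nil (x : V) : lst x [] = x := rfl

theorem lst_append (x : V) (l l' : List V) : lst x (l ++ l') = lst (lst x l) l' := by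
  unfold lst
  induction l generalizing x with
  | nil => simp
  | cons a l ih =>
    rw [List.cons_append, List.getLastD_cons, List.getLastD_cons]
    exact ih a

theorem lst_concat (x y : V) (l : List V) : lst x (l ++ [y]) = y := by
  rw [lst_append]
  rfl

theorem A3_lst_cons (x y : V) (l : List V) : lst x (y :: l) = lst y l := by
  unfold lst
  rw [List.getLastD_cons]

theorem lst_mem (x : V) (l : List V) : lst x l ∈ x :: l := by
  induction l generalizing x with
  | nil => simp [lst_nil]
  | cons a l ih =>
    rw [A3_lst_cons]
    exact List.mem_cons_of_mem _ (ih a)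

theorem run_head (x : V) (ρ l : List V) : ∃ τ, run (x :: ρ) l = lst x l :: τ := by
  induction l generalizing x ρ with
  | nil => exact ⟨ρ, rfl⟩
  | cons a l ih =>
    rw [run_cons, A3_lst_cons]
    obtain ⟨τ, hτ⟩ := A3_stp_cons (x :: ρ) a
    rw [hτ]
    exact ih a τ

theorem run_nodup {γ : List V} (h : γ.Nodup) (l : List V) : (run γ l).Nodup := by
  induction l generalizing γ with
  | nil => exact h
  | cons a l ih =>
    rw [run_cons]
    exact ih (A3_stp_nodup h a)

theorem mem_run {γ l : List V} {y : V} (h : y ∈ run γ l) : y ∈ γ ∨ y ∈ l := by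
  induction l generalizing γ with
  | nil => exact Or.inl h
  | cons a l ih =>
    rw [run_cons] at h
    rcases ih h with h' | h'
    · rcases A3_stp_subset h' with h'' | h''
      · exact Or.inl h''
      · exact Or.inr (by simp [h''])
    · exact Or.inr (List.mem_cons_of_mem _ h')

theorem run_length_le (γ l : List V) : (run γ l).length ≤ γ.length + l.length := by
  induction l generalizing γ with
  | nil => simp [run_nil]
  | cons a l ih =>
    rw [run_cons]
    have h1 := ih (stp γ a)
    have h2 := stp_length_le γ a
    simp only [List.length_cons]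
    omega

theorem A3_stp_map (σ : Equiv.Perm V) (γ : List V) (y : V) :
    stp (γ.map σ) (σ y) = (stp γ y).map σ := by
  by_cases hA : y ∈ γ
  · obtain ⟨u, v, rfl, hu⟩ := A3_split y γ hA
    rw [A3_stp_mem y u v hu, List.map_append, List.map_cons, A3_stp_mem]
    intro h
    obtain ⟨z, hz, hz'⟩ := List.mem_map.mp h
    rw [σ.injective hz'] at hz
    exact hu hz
  · rw [A3_stp_notMem hA, A3_stp_notMem]
    · rfl
    · intro h
      obtain ⟨z, hz, hz'⟩ := List.mem_map.mp h
      rw [σ.injective hz'] at hz
      exact hA hz

theorem run_map (σ : Equiv.Perm V) (γ l : List V) :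
    run (γ.map σ) (l.map σ) = (run γ l).map σ := by
  induction l generalizing γ with
  | nil => rfl
  | cons a l ih =>
    rw [List.map_cons, run_cons, run_cons, A3_stp_map]
    exact ih (stp γ a)

theorem lst_map (σ : Equiv.Perm V) (x : V) (l : List V) : lst (σ x) (l.map σ) = σ (lst x l) := by
  induction l generalizing x with
  | nil => rfl
  | cons a l ih =>
    rw [List.map_cons, A3_lst_cons, A3_lst_cons]
    exact ih a

theorem lel_map (σ : Equiv.Perm V) (x : V) (l : List V) : lel (σ x) (l.map σ) = lel x l := by
  unfold lel
  have h := run_map σ [x] l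
  rw [List.map_cons, List.map_nil] at h
  rw [h, List.length_map]

theorem run_single_length (x : V) (l : List V) : (run [x] l).length = lel x l + 1 := by
  unfold lel
  obtain ⟨τ, hτ⟩ := run_head x [] l
  rw [hτ]
  simp

theorem lel_le (x : V) (l : List V) : lel x l ≤ l.length := by
  have h1 := run_single_length x l
  have h2 := run_length_le [x] l
  simp only [List.length_cons, List.length_nil] at h2
  omega

theorem A3_run_append_avoid (A ρ l : List V) (h : ∀ y ∈ l, y ∉ ρ) :
    run (A ++ ρ) l = run A l ++ ρ := by
  induction l generalizing A with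
  | nil => rfl
  | cons a l ih =>
    rw [run_cons, run_cons, A3_stp_append A ρ a (h a (by simp))]
    exact ih (stp A a) (fun y hy => h y (List.mem_cons_of_mem _ hy))

/-- if the walk avoids the part `ρ` of the state, it acts on the rest only -/
theorem run_avoid (x : V) (ρ l : List V) (h : ∀ y ∈ l, y ∉ ρ) :
    run (x :: ρ) l = run [x] l ++ ρ := by
  have := A3_run_append_avoid [x] ρ l h
  simpa using this

theorem run_avoid_length (x : V) (ρ l : List V) (h : ∀ y ∈ l, y ∉ ρ) :
    (run (x :: ρ) l).length = lel x l + ρ.length + 1 := by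
  rw [run_avoid x ρ l h, List.length_append, run_single_length]
  omega

/-- a suffix which is not hit survives -/
theorem suffix_run {σ γ : List V} (hσ : σ <:+ γ) {l : List V} (h : ∀ y ∈ l, y ∉ σ) :
    σ <:+ run γ l := by
  obtain ⟨A, rfl⟩ := hσ
  rw [A3_run_append_avoid A σ l h]
  exact List.suffix_append _ _

/-- time of the minimal level: the last time at which the state is a suffix of the initial state -/
theorem split_min (x : V) (ρ l : List V) (hnd : (x :: ρ).Nodup) :
    ∃ (l1 l2 : List V) (z : V) (σ : List V), l = l1 ++ l2 ∧ run (x :: ρ) l1 = z :: σ ∧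
      lst x l1 = z ∧ (z :: σ) <:+ (x :: ρ) ∧ (∀ y ∈ l2, y ∉ z :: σ) ∧
      run (x :: ρ) l = run [z] l2 ++ σ := by
  induction l using List.reverseRecOn with
  | nil => exact ⟨[], [], x, ρ, rfl, rfl, rfl, List.suffix_rfl, by simp, rfl⟩
  | append_singleton l y ih =>
    obtain ⟨l1, l2, z, σ, h1, h2, h3, h4, h5, h6⟩ := ih
    by_cases hy : y ∈ z :: σ
    · -- new minimal time
      obtain ⟨B, hB⟩ : [z] <:+ run [z] l2 :=
        suffix_run List.suffix_rfl (fun w hw hw' => h5 w hw (by
          rw [List.mem_singleton] at hw'; simp [hw']))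
      have hstate : run (x :: ρ) l = B ++ z :: σ := by
        rw [h6, ← hB]
        simp
      have hndstate : (B ++ z :: σ).Nodup := by
        rw [← hstate]
        exact run_nodup hnd l
      obtain ⟨u, v, huv, hu⟩ := A3_split y (z :: σ) hy
      have hyB : y ∉ B := fun hB' => (List.nodup_append.mp hndstate).2.2 y hB' y hy rfl
      have hnew : run (x :: ρ) (l ++ [y]) = y :: v := by
        rw [A3_run_concat, hstate, huv, ← List.append_assoc]
        exact A3_stp_mem y (B ++ u) v (by simp [hyB, hu])
      refine ⟨l ++ [y], [], y, v, by simp, hnew, lst_concat x y l, ?_, by simp, by rw [hnew]; rfl⟩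
      refine List.IsSuffix.trans ?_ h4
      rw [huv]
      exact List.suffix_append _ _
    · refine ⟨l1, l2 ++ [y], z, σ, by rw [h1, List.append_assoc], h2, h3, h4, ?_, ?_⟩
      · intro w hw
        rcases List.mem_append.mp hw with hw | hw
        · exact h5 w hw
        · rw [List.mem_singleton] at hw
          rw [hw]
          exact hy
      · rw [A3_run_concat, h6, A3_stp_append _ _ _ (fun h => hy (List.mem_cons_of_mem _ h)),
          A3_run_concat]

theorem A3_split_level (x : V) (l : List V) : ∀ q, q ≤ lel x l →
    ∃ (l1 l2 : List V) (z : V) (σ : List V), l = l1 ++ l2 ∧ run [x] l1 = z :: σ ∧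
      σ.length = q ∧ run [x] l = run [z] l2 ++ σ := by
  induction l using List.reverseRecOn with
  | nil =>
    intro q hq
    have : lel x [] = 0 := rfl
    have hq0 : q = 0 := by omega
    subst hq0
    exact ⟨[], [], x, [], rfl, rfl, rfl, rfl⟩
  | append_singleton l y ih =>
    intro q hq
    have hndl : (run [x] l).Nodup := run_nodup (by simp) l
    have hlen := run_single_length x l
    have hlen' := run_single_length x (l ++ [y])
    rw [A3_run_concat] at hlen'
    by_cases hy : y ∈ run [x] l
    · obtain ⟨u, v, huv, hu⟩ := A3_split y _ hy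
      have hst : stp (run [x] l) y = y :: v := by
        rw [huv]
        exact A3_stp_mem y u v hu
      rw [hst, List.length_cons] at hlen'
      by_cases hqv : q = v.length
      · exact ⟨l ++ [y], [], y, v, by simp, by rw [A3_run_concat, hst], hqv.symm, by
          rw [A3_run_concat, hst]; rfl⟩
      · have hqlt : q < v.length := by omega
        rw [huv, List.length_append, List.length_cons] at hlen
        obtain ⟨l1, l2, z, σ, h1, h2, h3, h4⟩ := ih q (by omega)
        have hyσ : y ∉ σ := by
          intro hyσ
          have hs1 : σ <:+ run [x] l := by rw [h4]; exact List.suffix_append _ _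
          have hs2 : v <:+ run [x] l := by
            rw [huv]
            exact ⟨u ++ [y], by simp⟩
          have hs3 : σ <:+ v := List.suffix_of_suffix_length_le hs1 hs2 (by omega)
          have hyv : y ∈ v := hs3.subset hyσ
          rw [huv] at hndl
          have := (List.nodup_append.mp hndl).2.1
          exact (List.nodup_cons.mp this).1 hyv
        refine ⟨l1, l2 ++ [y], z, σ, by rw [h1, List.append_assoc], h2, h3, ?_⟩
        rw [A3_run_concat, h4, A3_stp_append _ _ _ hyσ, A3_run_concat]
    · have hst : stp (run [x] l) y = y :: run [x] l := A3_stp_notMem hy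
      rw [hst, List.length_cons] at hlen'
      by_cases hqv : q = (run [x] l).length
      · exact ⟨l ++ [y], [], y, run [x] l, by simp, by rw [A3_run_concat, hst], hqv.symm, by
          rw [A3_run_concat, hst]; rfl⟩
      · obtain ⟨l1, l2, z, σ, h1, h2, h3, h4⟩ := ih q (by omega)
        have hyσ : y ∉ σ := by
          intro hyσ
          apply hy
          rw [h4]
          exact List.mem_append_right _ hyσ
        refine ⟨l1, l2 ++ [y], z, σ, by rw [h1, List.append_assoc], h2, h3, ?_⟩
        rw [A3_run_concat, h4, A3_stp_append _ _ _ hyσ, A3_run_concat]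

/-- last time at which the level is `≤ q` -/
theorem split_level (x : V) (l : List V) (q q' : ℕ) (h : lel x l = q + q') :
    ∃ l1 l2 : List V, l = l1 ++ l2 ∧ lel x l1 = q ∧ lel (lst x l1) l2 = q' := by
  obtain ⟨l1, l2, z, σ, h1, h2, h3, h4⟩ := A3_split_level x l q (by omega)
  have hz : lst x l1 = z := by
    obtain ⟨τ, hτ⟩ := run_head x [] l1
    rw [hτ] at h2
    exact (List.cons.inj h2).1
  refine ⟨l1, l2, h1, ?_, ?_⟩
  · have := run_single_length x l1
    rw [h2, List.length_cons, h3] at this
    omega
  · have e1 := run_single_length x l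
    rw [h4, List.length_append, run_single_length] at e1
    rw [hz]
    omega

theorem A3_persist (γ l2 : List V) (hnd : γ.Nodup) (y : V) (hy : y ∈ run γ l2) (h2 : y ∉ l2) :
    y ∈ γ ∧ (run γ l2).dropWhile (fun z => decide (z ≠ y))
      = γ.dropWhile (fun z => decide (z ≠ y)) := by
  induction l2 generalizing γ with
  | nil => exact ⟨hy, rfl⟩
  | cons a l ih =>
    rw [run_cons] at hy ⊢
    have hya : y ≠ a := fun h => h2 (by simp [h])
    have hyl : y ∉ l := fun h => h2 (List.mem_cons_of_mem _ h)
    obtain ⟨i1, i2⟩ := ih (stp γ a) (A3_stp_nodup hnd a) hy hyl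
    rw [i2]
    by_cases hA : a ∈ γ
    · obtain ⟨u, v, rfl, hu⟩ := A3_split a γ hA
      rw [A3_stp_mem a u v hu] at i1 ⊢
      refine ⟨List.mem_append_right _ i1, ?_⟩
      have hyu : y ∉ u := fun h => (List.nodup_append.mp hnd).2.2 y h y i1 rfl
      obtain ⟨u', v', huv', hu'⟩ := A3_split y _ i1
      rw [huv', A3_dw_eq y u' v' hu', ← List.append_assoc,
        A3_dw_eq y (u ++ u') v' (by simp [hyu, hu'])]
    · rw [A3_stp_notMem hA] at i1 ⊢
      have i1' : y ∈ γ := by
        rcases List.mem_cons.mp i1 with h | h
        · exact absurd h hya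
        · exact h
      refine ⟨i1', ?_⟩
      rw [List.dropWhile_cons_of_pos (by simpa using Ne.symm hya)]

/-- a vertex of the final state which is not visited by `l2` was in the state before `l2`, with the same
path below it -/
theorem persist (γ l1 l2 : List V) (hnd : γ.Nodup) (y : V) (hy : y ∈ run γ (l1 ++ l2)) (h2 : y ∉ l2) :
    y ∈ run γ l1 ∧ (run γ (l1 ++ l2)).dropWhile (fun z => decide (z ≠ y))
      = (run γ l1).dropWhile (fun z => decide (z ≠ y)) := by
  rw [run_append] at hy ⊢
  exact A3_persist (run γ l1) l2 (run_nodup hnd l1) y hy h2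

/-- the vertices visited during `l2` are at the top of the state -/
theorem A3_top (γ l2 : List V) (hnd : γ.Nodup) :
    ∃ τ σ : List V, run γ l2 = τ ++ σ ∧ (∀ z ∈ σ, z ∉ l2) ∧ (∀ z ∈ τ, z ∈ l2) := by
  induction l2 using List.reverseRecOn with
  | nil => exact ⟨[], γ, rfl, by simp, by simp⟩
  | append_singleton l y ih =>
    obtain ⟨τ, σ, h1, h2, h3⟩ := ih
    have hnd' : (run γ l).Nodup := run_nodup hnd l
    rw [A3_run_concat]
    by_cases hy : y ∈ run γ l
    · obtain ⟨u, v, huv, hu⟩ := A3_split y _ hy
      rw [huv, A3_stp_mem y u v hu]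
      have hyv : y ∉ v := by
        rw [huv] at hnd'
        exact (List.nodup_cons.mp (List.nodup_append.mp hnd').2.1).1
      by_cases hyτ : y ∈ τ
      · -- y in τ
        obtain ⟨u', v', huv', hu'⟩ := A3_split y τ hyτ
        have hv : y :: v = (y :: v') ++ σ := by
          have e : u ++ y :: v = u' ++ y :: (v' ++ σ) := by
            rw [← huv, h1, huv']
            simp
          have e1 := A3_dw_eq y u v hu
          have e2 := A3_dw_eq y u' (v' ++ σ) hu'
          rw [e, e2] at e1
          rw [← e1]
          rfl
        refine ⟨y :: v', σ, hv, ?_, ?_⟩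
        · intro z hz hz'
          rcases List.mem_append.mp hz' with hz' | hz'
          · exact h2 z hz hz'
          · rw [List.mem_singleton] at hz'
            subst hz'
            apply hyv
            have : z :: v = z :: (v' ++ σ) := hv
            rw [(List.cons.inj this).2]
            exact List.mem_append_right _ hz
        · intro z hz
          rcases List.mem_cons.mp hz with hz | hz
          · simp [hz]
          · refine List.mem_append_left _ (h3 z ?_)
            rw [huv']
            simp [hz]
      · -- y in σ
        have hyσ : y ∈ σ := by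
          rw [h1] at hy
          rcases List.mem_append.mp hy with h | h
          · exact absurd h hyτ
          · exact h
        obtain ⟨u', v', huv', hu'⟩ := A3_split y σ hyσ
        have hv : y :: v = y :: v' := by
          have e : u ++ y :: v = (τ ++ u') ++ y :: v' := by
            rw [← huv, h1, huv']
            simp
          have e1 := A3_dw_eq y u v hu
          have e2 := A3_dw_eq y (τ ++ u') v' (by simp [hyτ, hu'])
          rw [e, e2] at e1
          rw [← e1]
        have hv' : v = v' := (List.cons.inj hv).2
        refine ⟨[y], v, rfl, ?_, ?_⟩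
        · intro z hz hz'
          rcases List.mem_append.mp hz' with hz' | hz'
          · refine h2 z ?_ hz'
            rw [huv', ← hv']
            simp [hz]
          · rw [List.mem_singleton] at hz'
            subst hz'
            exact hyv hz
        · intro z hz
          rw [List.mem_singleton] at hz
          simp [hz]
    · rw [A3_stp_notMem hy, h1]
      refine ⟨y :: τ, σ, rfl, ?_, ?_⟩
      · intro z hz hz'
        rcases List.mem_append.mp hz' with hz' | hz'
        · exact h2 z hz hz'
        · rw [List.mem_singleton] at hz'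
          subst hz'
          apply hy
          rw [h1]
          exact List.mem_append_right _ hz
      · intro z hz
        rcases List.mem_cons.mp hz with hz | hz
        · simp [hz]
        · exact List.mem_append_left _ (h3 z hz)

/-- at most `b` of the vertices of the state have been visited during the last `b` times, and they are
at its top -/
theorem top_split (b : ℕ) (x : V) (ρ l : List V) (hnd : (x :: ρ).Nodup) :
    ∃ τ σ : List V, run (x :: ρ) l = τ ++ σ ∧ τ.length ≤ b ∧ (∀ z ∈ σ, z ∉ (x :: l).rtake b) ∧
      (∀ z ∈ τ, z ∈ (x :: l).rtake b) := by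
  have hxρ : x ∉ ρ := (List.nodup_cons.mp hnd).1
  have hρ : ρ.Nodup := (List.nodup_cons.mp hnd).2
  have hrun : run (x :: ρ) l = run ρ (x :: l) := by
    rw [run_cons, A3_stp_notMem hxρ]
  set w := x :: l with hw
  have hsplit : w = w.take (w.length - b) ++ w.rtake b := by
    unfold List.rtake
    rw [List.take_append_drop]
  obtain ⟨τ, σ, h1, h2, h3⟩ := A3_top (run ρ (w.take (w.length - b))) (w.rtake b)
    (run_nodup hρ _)
  have hr : run (x :: ρ) l = τ ++ σ := by
    rw [hrun, ← h1, ← run_append, ← hsplit]
  refine ⟨τ, σ, hr, ?_, h2, h3⟩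
  have hτ : τ.Nodup := by
    have : (run (x :: ρ) l).Nodup := run_nodup hnd l
    rw [hr] at this
    exact (List.nodup_append.mp this).1
  have hsub : τ.length ≤ (w.rtake b).length :=
    (List.subperm_of_subset hτ (fun z hz => h3 z hz)).length_le
  have hlen : (w.rtake b).length ≤ b := by
    unfold List.rtake
    rw [List.length_drop]
    omega
  omega

end States

end Pool.Agent.helper20.HP
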