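import Pool.Agent.helper20.HP.Goal
import Pool.Agent.helper31.HP.A1

/-!
Module ut:A5 of project MP_5ae64c_pr : killed words.
-/

open scoped BigOperators Topology
open Filter MeasureTheory

namespace Pool.Agent.helper20.HP

variable {V : Type} [Fintype V] [DecidableEq V] (K : HW V)

theorem kmT_mono (Γ : List V) (t : ℕ) {f g : V → List V → List V → ℝ}
    (h : ∀ i : Fin Γ.length, ∀ l, l.length = t → (∀ y ∈ l, y ∉ Γ) →
      f (Γ.get i) (Γ.drop (i + 1)) l ≤ g (Γ.get i) (Γ.drop (i + 1)) l) :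
    kmT K Γ t f ≤ kmT K Γ t g := by
  unfold kmT
  refine Finset.sum_le_sum (fun i _ => W_mono K t _ (fun l hl => ?_))
  by_cases hh : ∀ y ∈ l, y ∉ Γ
  · rw [ind_true hh, one_mul, one_mul]
    exact h i l hl hh
  · rw [ind_false hh, zero_mul, zero_mul]

theorem kmT_congr (Γ : List V) (t : ℕ) {f g : V → List V → List V → ℝ}
    (h : ∀ i : Fin Γ.length, ∀ l, l.length = t → (∀ y ∈ l, y ∉ Γ) →
      f (Γ.get i) (Γ.drop (i + 1)) l = g (Γ.get i) (Γ.drop (i + 1)) l) :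
    kmT K Γ t f = kmT K Γ t g :=
  le_antisymm (kmT_mono K Γ t (fun i l h1 h2 => (h i l h1 h2).le))
    (kmT_mono K Γ t (fun i l h1 h2 => (h i l h1 h2).ge))

theorem kmT_add (Γ : List V) (t : ℕ) (f g : V → List V → List V → ℝ) :
    kmT K Γ t (fun x ρ l => f x ρ l + g x ρ l) = kmT K Γ t f + kmT K Γ t g := by
  unfold kmT
  rw [← Finset.sum_add_distrib]
  refine Finset.sum_congr rfl (fun i _ => ?_)
  rw [← W_add]
  exact W_congr K t _ (fun l _ => by ring)

theorem kmT_mul_left (Γ : List V) (t : ℕ) (c : ℝ) (f : V → List V → List V → ℝ) :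
    kmT K Γ t (fun x ρ l => c * f x ρ l) = c * kmT K Γ t f := by
  unfold kmT
  rw [Finset.mul_sum]
  refine Finset.sum_congr rfl (fun i _ => ?_)
  rw [← W_mul_left]
  exact W_congr K t _ (fun l _ => by ring)

theorem kmT_sum {ι : Type*} (s : Finset ι) (Γ : List V) (t : ℕ) (f : ι → V → List V → List V → ℝ) :
    kmT K Γ t (fun x ρ l => ∑ i ∈ s, f i x ρ l) = ∑ i ∈ s, kmT K Γ t (f i) := by
  unfold kmT
  rw [Finset.sum_comm]
  refine Finset.sum_congr rfl (fun i _ => ?_)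
  rw [← W_sum]
  exact W_congr K t _ (fun l _ => by rw [Finset.mul_sum])

omit [Fintype V] [DecidableEq V] in
theorem A5_ind_append (Γ l l' : List V) :
    ind (∀ y ∈ l ++ l', y ∉ Γ) = ind (∀ y ∈ l, y ∉ Γ) * ind (∀ y ∈ l', y ∉ Γ) := by
  rw [← ind_and]
  exact ind_congr List.forall_mem_append

theorem kmT_split (Γ : List V) (s k : ℕ) (f : V → List V → List V → ℝ) :
    kmT K Γ (s + k) f = kmT K Γ s (fun x ρ l =>
      W K k (lst x l) (fun l' => ind (∀ y ∈ l', y ∉ Γ) * f x ρ (l ++ l'))) := by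
  unfold kmT
  refine Finset.sum_congr rfl (fun i _ => ?_)
  rw [W_split]
  refine W_congr K s _ (fun l _ => ?_)
  rw [← W_mul_left]
  refine W_congr K k _ (fun l' _ => ?_)
  rw [A5_ind_append]
  ring

theorem kmT_nonneg (Γ : List V) (t : ℕ) {f : V → List V → List V → ℝ} (h : ∀ x ρ l, 0 ≤ f x ρ l) :
    0 ≤ kmT K Γ t f :=
  Finset.sum_nonneg (fun _ _ => W_nonneg K t _ (fun l _ => mul_nonneg (ind_nonneg _) (h _ _ l)))

theorem km_nonneg (Γ : List V) (N : ℕ) {f : V → List V → List V → ℝ} (h : ∀ x ρ l, 0 ≤ f x ρ l) :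
    0 ≤ km K Γ N f :=
  Finset.sum_nonneg (fun t _ => kmT_nonneg K Γ t h)

theorem km_mono (Γ : List V) (N : ℕ) {f g : V → List V → List V → ℝ}
    (h : ∀ i : Fin Γ.length, ∀ l, l.length < N → (∀ y ∈ l, y ∉ Γ) →
      f (Γ.get i) (Γ.drop (i + 1)) l ≤ g (Γ.get i) (Γ.drop (i + 1)) l) :
    km K Γ N f ≤ km K Γ N g :=
  Finset.sum_le_sum (fun t ht => kmT_mono K Γ t (fun i l hl hh =>
    h i l (by rw [hl]; exact Finset.mem_range.mp ht) hh))

theorem km_add (Γ : List V) (N : ℕ) (f g : V → List V → List V → ℝ) :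
    km K Γ N (fun x ρ l => f x ρ l + g x ρ l) = km K Γ N f + km K Γ N g := by
  unfold km
  rw [← Finset.sum_add_distrib]
  exact Finset.sum_congr rfl (fun t _ => kmT_add K Γ t f g)

theorem km_mul_left (Γ : List V) (N : ℕ) (c : ℝ) (f : V → List V → List V → ℝ) :
    km K Γ N (fun x ρ l => c * f x ρ l) = c * km K Γ N f := by
  unfold km
  rw [Finset.mul_sum]
  exact Finset.sum_congr rfl (fun t _ => kmT_mul_left K Γ t c f)

theorem km_sum {ι : Type*} (s : Finset ι) (Γ : List V) (N : ℕ) (f : ι → V → List V → List V → ℝ) :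
    km K Γ N (fun x ρ l => ∑ i ∈ s, f i x ρ l) = ∑ i ∈ s, km K Γ N (f i) := by
  unfold km
  rw [Finset.sum_comm]
  exact Finset.sum_congr rfl (fun t _ => kmT_sum K s Γ t f)

/-- appending `k` steps -/
theorem km_split (Γ : List V) (N k : ℕ) (f : V → List V → List V → ℝ) :
    km K Γ (N + k) f = km K Γ k f + km K Γ N (fun x ρ l =>
      W K k (lst x l) (fun l' => ind (∀ y ∈ l', y ∉ Γ) * f x ρ (l ++ l'))) := by
  unfold km
  rw [add_comm N k, Finset.sum_range_add]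
  congr 1
  refine Finset.sum_congr rfl (fun t _ => ?_)
  rw [add_comm k t, kmT_split]

theorem km_mono_N (Γ : List V) {N N' : ℕ} (hN : N ≤ N') {f : V → List V → List V → ℝ}
    (h : ∀ x ρ l, 0 ≤ f x ρ l) : km K Γ N f ≤ km K Γ N' f :=
  Finset.sum_le_sum_of_subset_of_nonneg (Finset.range_mono hN)
    (fun t _ _ => kmT_nonneg K Γ t h)

/-- expected number of starting points from which the walk avoids `Γ` at the times `1, …, t` -/
noncomputable def A5_T (Γ : List V) (t : ℕ) : ℝ :=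
  ∑ x, W K t x (fun l => ind (∀ y ∈ l, y ∉ Γ))

theorem A5_T_zero (Γ : List V) : A5_T K Γ 0 = (Fintype.card V : ℝ) := by
  unfold A5_T
  have h : ∀ x : V, W K 0 x (fun l => ind (∀ y ∈ l, y ∉ Γ)) = 1 := by
    intro x
    rw [W_zero, ind_true (by simp)]
  rw [Finset.sum_congr rfl (fun x _ => h x)]
  simp

theorem A5_T_nonneg (Γ : List V) (t : ℕ) : 0 ≤ A5_T K Γ t :=
  Finset.sum_nonneg (fun _ _ => W_nonneg K t _ (fun _ _ => ind_nonneg _))

theorem A5_T_succ (Γ : List V) (t : ℕ) :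
    A5_T K Γ (t + 1) = ∑ x, ind (x ∉ Γ) * W K t x (fun l => ind (∀ y ∈ l, y ∉ Γ)) := by
  unfold A5_T
  have h1 := W_rev K (t + 1) (fun w => ind (∀ y ∈ w.tail, y ∉ Γ))
  simp only [List.tail_cons] at h1
  rw [h1]
  refine Finset.sum_congr rfl (fun x _ => ?_)
  rw [W_split, ← W_mul_left]
  refine W_congr K t x (fun l _ => ?_)
  have h2 : W K 1 (lst x l) (fun l' => ind (∀ y ∈ ((x :: (l ++ l')).reverse).tail, y ∉ Γ))
      = W K 1 (lst x l) (fun _ => ind (x ∉ Γ) * ind (∀ y ∈ l, y ∉ Γ)) := by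
    refine W_congr K 1 _ (fun l' hl' => ?_)
    obtain ⟨z, rfl⟩ := List.length_eq_one_iff.mp hl'
    rw [← ind_and]
    refine ind_congr ?_
    simp only [List.reverse_cons, List.reverse_append, List.reverse_nil, List.nil_append,
      List.cons_append, List.tail_cons, List.mem_append, List.mem_reverse, List.mem_singleton]
    constructor
    · intro h
      exact ⟨h x (Or.inr rfl), fun y hy => h y (Or.inl hy)⟩
    · rintro ⟨hx, hl⟩ y (hy | hy)
      · exact hl y hy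
      · rw [hy]; exact hx
  rw [h2, W_const]

omit [Fintype V] [DecidableEq V] in
theorem A5_sum_get (Γ : List V) (g : V → ℝ) :
    ∑ i : Fin Γ.length, g (Γ.get i) = (Γ.map g).sum := by
  rw [← List.sum_ofFn]
  congr 1
  conv_rhs => rw [← List.ofFn_get Γ]
  rw [List.map_ofFn]
  rfl

theorem A5_kmT_one (Γ : List V) (hΓ : Γ.Nodup) (t : ℕ) :
    kmT K Γ t (fun _ _ _ => 1) = A5_T K Γ t - A5_T K Γ (t + 1) := by
  have h1 : kmT K Γ t (fun _ _ _ => 1)
      = ∑ x ∈ Γ.toFinset, W K t x (fun l => ind (∀ y ∈ l, y ∉ Γ)) := by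
    unfold kmT
    simp only [mul_one]
    rw [List.sum_toFinset _ hΓ]
    exact A5_sum_get Γ (fun x => W K t x (fun l => ind (∀ y ∈ l, y ∉ Γ)))
  rw [h1, A5_T_succ]
  unfold A5_T
  rw [← Finset.sum_sub_distrib, ← Finset.sum_filter_add_sum_filter_not Finset.univ (fun x => x ∈ Γ)]
  have h2 : ∑ x ∈ Finset.univ.filter (fun x => ¬ x ∈ Γ),
      (W K t x (fun l => ind (∀ y ∈ l, y ∉ Γ))
        - ind (x ∉ Γ) * W K t x (fun l => ind (∀ y ∈ l, y ∉ Γ))) = 0 := by
    refine Finset.sum_eq_zero (fun x hx => ?_)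
    rw [ind_true (Finset.mem_filter.mp hx).2]
    ring
  rw [h2, add_zero]
  have h3 : Γ.toFinset = Finset.univ.filter (fun x => x ∈ Γ) := by
    ext x; simp
  rw [h3]
  refine Finset.sum_congr rfl (fun x hx => ?_)
  rw [ind_false (not_not.mpr (Finset.mem_filter.mp hx).2)]
  ring

/-- Kac: the total killed mass is at most `n` -/
theorem kac (Γ : List V) (hΓ : Γ.Nodup) (N : ℕ) :
    km K Γ N (fun _ _ _ => 1) ≤ (Fintype.card V : ℝ) := by
  have h : km K Γ N (fun _ _ _ => 1) = A5_T K Γ 0 - A5_T K Γ N := by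
    unfold km
    rw [Finset.sum_congr rfl (fun t _ => A5_kmT_one K Γ hΓ t), Finset.sum_range_sub']
  rw [h, A5_T_zero]
  linarith [A5_T_nonneg K Γ N]

theorem kmT_abs_le (Γ : List V) (t : ℕ) (f : V → List V → List V → ℝ) :
    |kmT K Γ t f| ≤ kmT K Γ t (fun x ρ l => |f x ρ l|) := by
  unfold kmT
  refine (Finset.abs_sum_le_sum_abs _ _).trans (Finset.sum_le_sum (fun i _ => ?_))
  refine (W_abs_le K t _ _).trans (le_of_eq ?_)
  refine W_congr K t _ (fun l _ => ?_)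
  rw [abs_mul, abs_of_nonneg (ind_nonneg _)]

theorem A5_summable_one (Γ : List V) (hΓ : Γ.Nodup) :
    Summable (fun t => kmT K Γ t (fun _ _ _ => 1)) :=
  summable_of_sum_range_le (fun t => kmT_nonneg K Γ t (fun _ _ _ => zero_le_one))
    (fun N => kac K Γ hΓ N)

theorem summable_kmT (Γ : List V) (hΓ : Γ.Nodup) (f : V → List V → List V → ℝ) (C : ℝ)
    (hf : ∀ x ρ l, |f x ρ l| ≤ C) : Summable (fun t => kmT K Γ t f) := by
  have h1 := (A5_summable_one K Γ hΓ).mul_left C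
  refine Summable.of_norm_bounded h1 (fun t => ?_)
  rw [Real.norm_eq_abs]
  refine (kmT_abs_le K Γ t f).trans ?_
  rw [← kmT_mul_left]
  refine kmT_mono K Γ t (fun i l _ _ => ?_)
  rw [mul_one]
  exact hf _ _ _

omit [Fintype V] in
theorem A5_lev_nonneg (r : ℕ) (x : V) (ρ l : List V) : 0 ≤ lev r x ρ l := ind_nonneg _

omit [Fintype V] in
theorem A5_lev_abs (r : ℕ) (x : V) (ρ l : List V) : |lev r x ρ l| ≤ 1 := by
  rw [abs_of_nonneg (A5_lev_nonneg r x ρ l)]
  exact ind_le_one _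

theorem PhiN_le_Phi (Γ : List V) (hΓ : Γ.Nodup) (N r : ℕ) : PhiN K Γ N r ≤ Phi K Γ r :=
  (summable_kmT K Γ hΓ (lev r) 1 (A5_lev_abs r)).sum_le_tsum (Finset.range N)
    (fun t _ => kmT_nonneg K Γ t (A5_lev_nonneg r))

theorem PhiN_tendsto (Γ : List V) (hΓ : Γ.Nodup) (r : ℕ) :
    Tendsto (fun N => PhiN K Γ N r) atTop (𝓝 (Phi K Γ r)) :=
  (summable_kmT K Γ hΓ (lev r) 1 (A5_lev_abs r)).hasSum.tendsto_sum_nat

theorem Phi_nonneg (Γ : List V) (r : ℕ) : 0 ≤ Phi K Γ r :=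
  tsum_nonneg (fun t => kmT_nonneg K Γ t (A5_lev_nonneg r))

theorem PhiN_nonneg (Γ : List V) (N r : ℕ) : 0 ≤ PhiN K Γ N r :=
  km_nonneg K Γ N (A5_lev_nonneg r)

end Pool.Agent.helper20.HP
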