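import Pool.Agent.helper20.HP.Goal

/-!
Module ut:P1 of project MP_5ae64c_pr : chunks (pigeonhole).
-/

open scoped BigOperators Topology
open Filter MeasureTheory

namespace Pool.Agent.helper20.HP

theorem P1_aux (Λ : Finset ℕ) (B0 v Mc : ℕ) (hΛ : ∀ a ∈ Λ, a ≤ B0) (hv : 1 ≤ v)
    (P : ℕ → Prop) (dP : DecidablePred P)
    (hP : ∀ a', P a' ↔ ∃ j ∈ Finset.Icc 1 Mc, ∃ a ∈ Λ, a' = a + j * v) :
    (Λ.card : ℝ) - (((B0 : ℝ) + 1) / ((Mc : ℝ) + 1) + v) ≤ ((Λ.filter P).card : ℝ) := by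
  have hsplit := Finset.card_filter_add_card_filter_not (s := Λ) P
  have hpos : 0 < v * (Mc + 1) := Nat.mul_pos hv (Nat.succ_pos _)
  have hbad : (Λ.filter (fun a' => ¬ P a')).card
      ≤ (Finset.range v ×ˢ Finset.range (B0 / (v * (Mc + 1)) + 1)).card := by
    refine Finset.card_le_card_of_injOn (fun a => (a % v, a / (v * (Mc + 1)))) ?_ ?_
    · intro a ha
      have ha' := Finset.mem_filter.mp (Finset.mem_coe.mp ha)
      simp only [Finset.coe_product, Finset.coe_range, Set.mem_prod, Set.mem_Iio]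
      exact ⟨Nat.mod_lt _ hv, Nat.lt_succ_of_le (Nat.div_le_div_right (hΛ a ha'.1))⟩
    · have key : ∀ a1 ∈ Λ, ∀ a2 ∈ Λ, (¬ P a2) →
          a1 % v = a2 % v → a1 / (v * (Mc + 1)) = a2 / (v * (Mc + 1)) → ¬ a1 < a2 := by
        intro a1 h1 a2 h2 hb hmod hdiv hlt
        apply hb
        rw [hP]
        have e1 := Nat.div_add_mod a1 v
        have e2 := Nat.div_add_mod a2 v
        have hq : a1 / v < a2 / v := by
          by_contra hcon
          push Not at hcon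
          have : v * (a2 / v) ≤ v * (a1 / v) := Nat.mul_le_mul_left v hcon
          omega
        refine ⟨a2 / v - a1 / v, Finset.mem_Icc.mpr ⟨by omega, ?_⟩, a1, h1, ?_⟩
        · -- the quotients are in the same chunk
          rw [← Nat.div_div_eq_div_mul, ← Nat.div_div_eq_div_mul] at hdiv
          have f1 := Nat.div_add_mod (a1 / v) (Mc + 1)
          have f2 := Nat.div_add_mod (a2 / v) (Mc + 1)
          have f3 := Nat.mod_lt (a2 / v) (Nat.succ_pos Mc)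
          rw [hdiv] at f1
          have f3' : (a2 / v) % (Mc + 1) < Mc + 1 := f3
          omega
        · rw [Nat.sub_mul, Nat.mul_comm (a2 / v) v, Nat.mul_comm (a1 / v) v]
          have : v * (a1 / v) ≤ v * (a2 / v) := Nat.mul_le_mul_left v hq.le
          omega
      intro a1 h1 a2 h2 h12
      have h1' := Finset.mem_filter.mp (Finset.mem_coe.mp h1)
      have h2' := Finset.mem_filter.mp (Finset.mem_coe.mp h2)
      simp only [Prod.mk.injEq] at h12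
      have k1 := key a1 h1'.1 a2 h2'.1 h2'.2 h12.1 h12.2
      have k2 := key a2 h2'.1 a1 h1'.1 h1'.2 h12.1.symm h12.2.symm
      omega
  rw [Finset.card_product, Finset.card_range, Finset.card_range] at hbad
  have hM : (0 : ℝ) < (Mc : ℝ) + 1 := by positivity
  have hvR : (0 : ℝ) < v := by exact_mod_cast hv
  have h3 : ((B0 / (v * (Mc + 1)) : ℕ) : ℝ) ≤ (B0 : ℝ) / (v * ((Mc : ℝ) + 1)) := by
    have := @Nat.cast_div_le ℝ _ _ _ B0 (v * (Mc + 1))
    push_cast at this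
    exact this
  have h4 : (v : ℝ) * (((B0 / (v * (Mc + 1)) : ℕ) : ℝ) + 1) ≤ ((B0 : ℝ) + 1) / ((Mc : ℝ) + 1) + v := by
    have h5 : (v : ℝ) * ((B0 : ℝ) / (v * ((Mc : ℝ) + 1))) = (B0 : ℝ) / ((Mc : ℝ) + 1) := by
      field_simp
    have h6 : (B0 : ℝ) / ((Mc : ℝ) + 1) ≤ ((B0 : ℝ) + 1) / ((Mc : ℝ) + 1) := by
      gcongr
      linarith
    calc (v : ℝ) * (((B0 / (v * (Mc + 1)) : ℕ) : ℝ) + 1)
        ≤ v * ((B0 : ℝ) / (v * ((Mc : ℝ) + 1)) + 1) := by gcongr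
      _ = (B0 : ℝ) / ((Mc : ℝ) + 1) + v := by rw [mul_add, h5, mul_one]
      _ ≤ _ := by linarith
  have hbadR : ((Λ.filter (fun a' => ¬ P a')).card : ℝ)
      ≤ (v : ℝ) * (((B0 / (v * (Mc + 1)) : ℕ) : ℝ) + 1) := by
    exact_mod_cast hbad
  have hsplitR : ((Λ.filter P).card : ℝ)
      + ((Λ.filter (fun a' => ¬ P a')).card : ℝ)
      = (Λ.card : ℝ) := by
    exact_mod_cast hsplit
  linarith

open Classical in
theorem chunks (Λ : Finset ℕ) (B0 v Mc : ℕ) (hΛ : ∀ a ∈ Λ, a ≤ B0) (hv : 1 ≤ v) :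
    (Λ.card : ℝ) - (((B0 : ℝ) + 1) / ((Mc : ℝ) + 1) + v) ≤
      ((Λ.filter (fun a' => ∃ j ∈ Finset.Icc 1 Mc, ∃ a ∈ Λ, a' = a + j * v)).card : ℝ) :=
  P1_aux Λ B0 v Mc hΛ hv _ _ (fun _ => Iff.rfl)

end Pool.Agent.helper20.HP
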